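import Mathlib

/-!
Vector part of a flexible quadratic algebra with `([x,y],y,y) = 0`: a symmetric nondegenerate
form `B` and an anticommutative product `m` with `L_y³ = -B(y,y) L_y`. Arbitrary dimension.
-/

set_option autoImplicit false

namespace Pool.Agent.H254R3.NCJ

/-- the vector data -/
structure CP (K V : Type) [Field K] [AddCommGroup V] [Module K V] where
  B : V →ₗ[K] V →ₗ[K] K
  m : V →ₗ[K] V →ₗ[K] V
  symm : ∀ x y, B x y = B y x
  nd : ∀ x, (∀ y, B x y = 0) → x = 0
  alt : ∀ x, m x x = 0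
  skew : ∀ x y, B (m x y) y = 0
  cub : ∀ x y, m y (m y (m y x)) = -(B y y) • m y x
  two : (2 : K) ≠ 0

namespace CP

variable {K V : Type} [Field K] [AddCommGroup V] [Module K V] (d : CP K V)

theorem anti (x y : V) : d.m x y = -d.m y x := by
  have h := d.alt (x + y)
  simp only [map_add, LinearMap.add_apply, d.alt, zero_add, add_zero] at h
  rw [eq_neg_iff_add_eq_zero, add_comm]
  exact h

theorem skew2 (x y z : V) : d.B (d.m x y) z = -d.B y (d.m x z) := by
  have h := d.skew x (y + z)
  simp only [map_add, LinearMap.add_apply, d.skew, zero_add, add_zero] at h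
  rw [d.symm y]
  linear_combination h

include d in
theorem two_smul_eq {x : V} (h : (2 : K) • x = 0) : x = 0 :=
  (smul_eq_zero.mp h).resolve_left d.two

theorem P (y z x : V) :
    d.m y (d.m y (d.m z x)) + d.m y (d.m z (d.m y x)) + d.m z (d.m y (d.m y x)) =
      -(d.B y y) • d.m z x - (2 * d.B y z) • d.m y x := by
  have h1 := d.cub x (y + z)
  have h2 := d.cub x (y - z)
  have h3 := d.cub x z
  have hs := d.symm z y
  simp only [map_add, map_sub, LinearMap.add_apply, LinearMap.sub_apply, hs] at h1 h2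
  rw [← sub_eq_zero]
  apply d.two_smul_eq
  linear_combination (norm := module) h1 - h2 - (2 : K) • h3

/-- kernel of `L_e` -/
def Z (e x : V) : Prop := d.m e x = 0
/-- image of `L_e` -/
def S (e x : V) : Prop := d.m e (d.m e x) = -(d.B e e) • x

theorem Z_self (e : V) : d.Z e e := d.alt e

theorem S_m (e x : V) : d.S e (d.m e x) := d.cub x e

theorem orth {e x y : V} (hc : d.B e e ≠ 0) (hx : d.Z e x) (hy : d.S e y) : d.B x y = 0 := by
  have h1 : d.B x (d.m e (d.m e y)) = 0 := by
    have := d.skew2 e x (d.m e y)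
    rw [show d.m e x = 0 from hx, map_zero, LinearMap.zero_apply] at this
    linear_combination this
  rw [show d.m e (d.m e y) = _ from hy, map_smul, smul_eq_mul] at h1
  have h2 : d.B e e * d.B x y = 0 := by linear_combination -h1
  exact (mul_eq_zero.mp h2).resolve_left hc

theorem decomp {e : V} (hc : d.B e e ≠ 0) (x : V) : ∃ a b, d.Z e a ∧ d.S e b ∧ x = a + b := by
  refine ⟨x + (d.B e e)⁻¹ • d.m e (d.m e x), -(d.B e e)⁻¹ • d.m e (d.m e x), ?_, ?_, ?_⟩
  · unfold Z
    rw [map_add, map_smul, d.cub, smul_smul]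
    rw [mul_neg, inv_mul_cancel₀ hc]
    simp
  · unfold S
    simp only [map_smul, map_neg, neg_smul]
    rw [d.cub (d.m e x) e]
    module
  · module

theorem S_add {e x y : V} (hx : d.S e x) (hy : d.S e y) : d.S e (x + y) := by
  unfold S at *
  rw [map_add, map_add, hx, hy, smul_add]

theorem S_smul {e x : V} (a : K) (hx : d.S e x) : d.S e (a • x) := by
  unfold S at *
  rw [map_smul, map_smul, hx, smul_comm]

theorem S_neg {e x : V} (hx : d.S e x) : d.S e (-x) := by
  have := d.S_smul (-1) hx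
  simpa using this

theorem Z_add {e x y : V} (hx : d.Z e x) (hy : d.Z e y) : d.Z e (x + y) := by
  unfold Z at *
  rw [map_add, hx, hy, add_zero]

theorem Z_smul {e x : V} (a : K) (hx : d.Z e x) : d.Z e (a • x) := by
  unfold Z at *
  rw [map_smul, hx, smul_zero]

theorem Z_neg {e x : V} (hx : d.Z e x) : d.Z e (-x) := by
  have := d.Z_smul (-1) hx
  simpa using this

theorem S1 {e z u : V} (_hz : d.B e z = 0) (hu : d.Z e u) : d.S e (d.m z u) := by
  have h := d.P e z u
  rw [show d.m e u = 0 from hu] at h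
  simp only [map_zero, add_zero, smul_zero, sub_zero] at h
  exact h

theorem Be_S {e s : V} (hc : d.B e e ≠ 0) (hs : d.S e s) : d.B e s = 0 :=
  d.orth hc (d.Z_self e) hs

theorem S2 {e u s : V} (hc : d.B e e ≠ 0) (hu : d.Z e u) (hs : d.S e s) : d.S e (d.m u s) := by
  rw [d.anti]
  exact d.S_neg (d.S1 (d.Be_S hc hs) hu)

theorem ZZ {e u v : V} (hc : d.B e e ≠ 0) (hu : d.Z e u) (hv : d.Z e v) : d.m u v = 0 := by
  set u1 := u - ((d.B e e)⁻¹ * d.B e u) • e with hu1
  have hZ1 : d.Z e u1 := by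
    rw [hu1, sub_eq_add_neg]
    exact d.Z_add hu (d.Z_neg (d.Z_smul _ (d.Z_self e)))
  have hB1 : d.B e u1 = 0 := by
    rw [hu1, map_sub, map_smul, smul_eq_mul]
    field_simp
    ring
  have he : d.m u v = d.m u1 v := by
    rw [hu1, map_sub, map_smul, LinearMap.sub_apply, LinearMap.smul_apply,
      show d.m e v = 0 from hv]
    simp
  rw [he]
  have hS := d.S1 hB1 hv
  apply d.nd
  intro x
  obtain ⟨a, b, ha, hb, rfl⟩ := d.decomp hc x
  rw [map_add, d.symm _ a, d.orth hc ha hS, zero_add, d.skew2,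
    d.orth hc hv (d.S2 hc hZ1 hb), neg_zero]

theorem AC {e u s : V} (hc : d.B e e ≠ 0) (hu : d.Z e u) (hu0 : d.B e u = 0) (hs : d.S e s) :
    d.m u (d.m e s) = -d.m e (d.m u s) := by
  have h := d.P e u s
  have h1 : d.m e (d.m e (d.m u s)) = -(d.B e e) • d.m u s := d.S2 hc hu hs
  have h2 : d.m e (d.m e s) = -(d.B e e) • s := hs
  rw [h1, h2, hu0, map_smul] at h
  have h3 : d.m e (d.m u (d.m e s)) = d.B e e • d.m u s := by
    linear_combination (norm := module) h
  have h4 : d.m e (d.m e (d.m u (d.m e s))) = -(d.B e e) • d.m u (d.m e s) :=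
    d.S2 hc hu (d.S_m e s)
  rw [h3, map_smul] at h4
  have h5 : d.B e e • (d.m u (d.m e s) + d.m e (d.m u s)) = 0 := by
    linear_combination (norm := module) h4
  have h6 := (smul_eq_zero.mp h5).resolve_left hc
  exact eq_neg_of_add_eq_zero_left h6

theorem Q {e u s : V} (hc : d.B e e ≠ 0) (hu : d.Z e u) (hu0 : d.B e u = 0) (hs : d.S e s) :
    d.m u (d.m u s) = -(d.B u u) • s := by
  have h := d.P u e s
  have h1 := d.AC hc hu hu0 hs
  have h2 := d.AC hc hu hu0 (d.S2 hc hu hs)
  rw [h1, map_neg, h2, d.symm u e, hu0, ] at h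
  have h3 : d.m e (d.m u (d.m u s)) = -(d.B u u) • d.m e s := by
    linear_combination (norm := module) h
  have h4 : d.m e (d.m e (d.m u (d.m u s))) = -(d.B e e) • d.m u (d.m u s) :=
    d.S2 hc hu (d.S2 hc hu hs)
  rw [h3, map_smul, show d.m e (d.m e s) = _ from hs] at h4
  have h5 : d.B e e • (d.m u (d.m u s) + d.B u u • s) = 0 := by
    linear_combination (norm := module) h4
  have h6 := (smul_eq_zero.mp h5).resolve_left hc
  rw [neg_smul]
  exact eq_neg_of_add_eq_zero_left h6

theorem AC2 {e u w s : V} (hc : d.B e e ≠ 0) (hu : d.Z e u) (hu0 : d.B e u = 0)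
    (hw : d.Z e w) (hw0 : d.B e w = 0) (hs : d.S e s) :
    d.m u (d.m w s) + d.m w (d.m u s) = -(2 * d.B u w) • s := by
  have h := d.Q hc (d.Z_add hu hw) (by rw [map_add, hu0, hw0, add_zero]) hs
  have h1 := d.Q hc hu hu0 hs
  have h2 := d.Q hc hw hw0 hs
  simp only [map_add, LinearMap.add_apply, d.symm w u] at h
  linear_combination (norm := module) h - h1 - h2

theorem T0 {e x y z s : V} (hc : d.B e e ≠ 0) (hx : d.Z e x) (hy : d.Z e y) (hz : d.Z e z)
    (hs : d.S e s) : d.B (d.m x s) (d.m y (d.m z s)) = 0 := by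
  have h := d.P s y z
  rw [d.ZZ hc hy hz, d.symm s y, d.orth hc hy hs] at h
  have h1 : d.m s (d.m y (d.m s z)) + d.m y (d.m s (d.m s z)) = 0 := by
    linear_combination (norm := module) h - (0 : K) • h + (by simp :
      (0 : V) = d.m s (d.m s 0))
  have h2 := congrArg (d.B x) h1
  rw [map_add, map_zero] at h2
  have h3 : d.B x (d.m y (d.m s (d.m s z))) = 0 := by
    have := d.skew2 y x (d.m s (d.m s z))
    rw [d.ZZ hc hy hx, map_zero, LinearMap.zero_apply] at this
    linear_combination this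
  have h4 := d.skew2 s x (d.m y (d.m s z))
  rw [h3, add_zero] at h2
  rw [h2, neg_zero, d.anti s x, d.anti s z] at h4
  simpa using h4

end CP

end Pool.Agent.H254R3.NCJ
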