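import Mathlib
import Pool.Agent.H254R3.NCJ.CP

set_option autoImplicit false

namespace Pool.Agent.H254R3.NCJ

namespace CP

variable {K V : Type} [Field K] [AddCommGroup V] [Module K V] (d : CP K V)

/-- adjointness used throughout -/
theorem skew3 (x y z : V) : d.B y (d.m x z) = -d.B (d.m x y) z := by
  rw [d.skew2 x y z, neg_neg]

theorem S_nd {e q : V} (hc : d.B e e ≠ 0) (hq : d.S e q)
    (h : ∀ s, d.S e s → d.B s q = 0) : q = 0 := by
  apply d.nd
  intro x
  obtain ⟨a, b, ha, hb, rfl⟩ := d.decomp hc x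
  rw [map_add, d.symm q a, d.orth hc ha hq, zero_add, d.symm, h b hb]

theorem Bme_zero {e s : V} (h0 : d.S e s) (hc : d.B e e ≠ 0) (h : d.m e s = 0) : s = 0 := by
  have h1 : d.m e (d.m e s) = -(d.B e e) • s := h0
  rw [h, map_zero] at h1
  have h2 : d.B e e • s = 0 := by linear_combination (norm := module) h1
  exact (smul_eq_zero.mp h2).resolve_left hc

/-- `ker L_e` has dimension at most two -/
theorem dim2 {e u w x0 : V} (hc : d.B e e ≠ 0) (hx0 : d.m e x0 ≠ 0)
    (hu : d.Z e u) (hu0 : d.B e u = 0) (hu1 : d.B u u ≠ 0)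
    (hw : d.Z e w) (hw0 : d.B e w = 0) (huw : d.B u w = 0) : w = 0 := by
  have hT : ∀ s s' : V, d.S e s → d.S e s' →
      d.B (d.m e s) (d.m u (d.m w s')) = 0 := by
    intro s s' hs hs'
    have a1 := d.T0 hc (d.Z_self e) hu hw hs
    have a2 := d.T0 hc (d.Z_self e) hu hw hs'
    have a3 := d.T0 hc (d.Z_self e) hu hw (d.S_add hs hs')
    simp only [map_add, LinearMap.add_apply] at a3
    -- second term equals the first
    have b1 : d.B (d.m e s') (d.m u (d.m w s)) = d.B (d.m e s) (d.m u (d.m w s')) := by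
      have c1 : d.B (d.m e s') (d.m u (d.m w s)) = d.B (d.m w (d.m u (d.m e s'))) s := by
        rw [d.skew3 u (d.m e s') (d.m w s), d.skew3 w (d.m u (d.m e s')) s, neg_neg]
      have c2 : d.m w (d.m u (d.m e s')) = -d.m e (d.m u (d.m w s')) := by
        rw [d.AC hc hu hu0 hs', map_neg, d.AC hc hw hw0 (d.S2 hc hu hs'), neg_neg]
        have c3 := d.AC2 hc hu hu0 hw hw0 hs'
        rw [huw, mul_zero, neg_zero, zero_smul] at c3
        rw [← neg_eq_of_add_eq_zero_right c3, map_neg]
      rw [c1, c2, map_neg, LinearMap.neg_apply, d.symm, d.skew3 e s, neg_neg]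
    have h2 : (2 : K) * d.B (d.m e s) (d.m u (d.m w s')) = 0 := by
      linear_combination a3 - a1 - a2 - b1
    exact (mul_eq_zero.mp h2).resolve_left d.two
  have hws : ∀ s', d.S e s' → d.m w s' = 0 := by
    intro s' hs'
    have hq : d.m u (d.m w s') = 0 := by
      apply d.S_nd hc (d.S2 hc hu (d.S2 hc hw hs'))
      intro b hb
      have h1 := hT (-(d.B e e)⁻¹ • d.m e b) s' (d.S_smul _ (d.S_m e b)) hs'
      have h2 : d.m e (-(d.B e e)⁻¹ • d.m e b) = b := by
        rw [map_smul, show d.m e (d.m e b) = _ from hb, smul_smul, neg_mul_neg,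
          inv_mul_cancel₀ hc, one_smul]
      rwa [h2] at h1
    have h3 := d.Q hc hu hu0 (d.S2 hc hw hs')
    rw [hq, map_zero] at h3
    have h4 : d.B u u • d.m w s' = 0 := by linear_combination (norm := module) h3
    exact (smul_eq_zero.mp h4).resolve_left hu1
  have hwv : ∀ v, d.m w v = 0 := by
    intro v
    obtain ⟨a, b, ha, hb, rfl⟩ := d.decomp hc v
    rw [map_add, d.ZZ hc hw ha, hws b hb, add_zero]
  by_contra hne
  have hex : ∃ y0, d.B w y0 ≠ 0 := by
    by_contra hcon
    push Not at hcon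
    exact hne (d.nd w hcon)
  obtain ⟨y0, hy0⟩ := hex
  have key : ∀ y, d.B y w ≠ 0 → ∀ x, d.m y x = 0 := by
    intro y hy x
    have h := d.P y w x
    simp only [hwv, map_zero, smul_zero, add_zero, zero_sub] at h
    have h5 : (2 * d.B y w) • d.m y x = 0 := by linear_combination (norm := module) h
    exact (smul_eq_zero.mp h5).resolve_left (mul_ne_zero d.two hy)
  have h6 := key y0 (by rw [d.symm]; exact hy0) x0
  have h7 := key (y0 + e) (by
    rw [map_add, LinearMap.add_apply, hw0, add_zero, d.symm]; exact hy0) x0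
  rw [map_add, LinearMap.add_apply, h6, zero_add] at h7
  exact hx0 h7

theorem NE {e : V} (hc : d.B e e ≠ 0) (hm : ∃ x y, d.m x y ≠ 0) : ∃ x, d.m e x ≠ 0 := by
  by_contra hcon
  push Not at hcon
  obtain ⟨p, q, hpq⟩ := hm
  have key : ∀ y, d.B y e ≠ 0 → ∀ x, d.m y x = 0 := by
    intro y hy x
    have h := d.P y e x
    simp only [hcon, map_zero, smul_zero, add_zero, zero_sub] at h
    have h5 : (2 * d.B y e) • d.m y x = 0 := by linear_combination (norm := module) h
    exact (smul_eq_zero.mp h5).resolve_left (mul_ne_zero d.two hy)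
  by_cases hp : d.B p e = 0
  · have h7 := key (p + e) (by rw [map_add, LinearMap.add_apply, hp, zero_add]; exact hc) q
    rw [map_add, LinearMap.add_apply, hcon, add_zero] at h7
    exact hpq h7
  · exact hpq (key p hp q)

/-- the alternative law -/
def Law (y : V) : Prop := ∀ x, d.m y (d.m y x) = -(d.B y y) • x + (d.B y x) • y

theorem law_aniso {e : V} (hc : d.B e e ≠ 0)
    (h : ∀ u, d.Z e u → d.B e u = 0 → u = 0) : d.Law e := by
  intro x
  have h1 := h (x + (d.B e e)⁻¹ • d.m e (d.m e x) - ((d.B e e)⁻¹ * d.B e x) • e) (by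
      unfold Z
      rw [map_sub, map_add, map_smul, map_smul, d.cub, d.alt, smul_zero, sub_zero, smul_smul,
        mul_neg, inv_mul_cancel₀ hc]
      module) (by
      rw [map_sub, map_add, map_smul, map_smul, d.skew3 e e, d.alt, map_zero,
        LinearMap.zero_apply, smul_eq_mul, smul_eq_mul]
      field_simp
      ring)
  have h2 := congrArg (fun v => d.B e e • v) h1
  simp only [smul_sub, smul_add, smul_smul, mul_inv_cancel₀ hc, ← mul_assoc, one_smul,
    smul_zero, one_mul] at h2
  linear_combination (norm := module) h2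

/-- polarised vanishing -/
theorem B_zero_of_iso (T : V → Prop) (hadd : ∀ x y, T x → T y → T (x + y))
    (h : ∀ x, T x → d.B x x = 0) : ∀ x y, T x → T y → d.B x y = 0 := by
  intro x y hx hy
  have h1 := h _ (hadd x y hx hy)
  simp only [map_add, LinearMap.add_apply, h x hx, h y hy, d.symm y x] at h1
  have h2 : (2 : K) * d.B x y = 0 := by linear_combination h1
  exact (mul_eq_zero.mp h2).resolve_left d.two

theorem exists_two_dim (hm : ∃ x y, d.m x y ≠ 0) (hna : ∃ y, ¬ d.Law y) :
    ∃ e u, d.B e e ≠ 0 ∧ d.Z e u ∧ d.B e u = 0 ∧ u ≠ 0 := by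
  by_contra hcon
  push Not at hcon
  have hcon' : ∀ e, d.B e e ≠ 0 → d.Law e := fun e he =>
    d.law_aniso he (fun u h1 h2 => hcon e u he h1 h2)
  obtain ⟨n, hn⟩ := hna
  apply hn
  by_cases hnn : d.B n n = 0
  swap
  · exact hcon' n hnn
  by_cases hex : ∃ e, d.B n e = 0 ∧ d.B e e ≠ 0
  · obtain ⟨e, hne, hee⟩ := hex
    have hen : d.B e n = 0 := by rw [d.symm]; exact hne
    intro x
    have l1 := hcon' e hee x
    have l2 := hcon' (e + n) (by
      simp only [map_add, LinearMap.add_apply, hne, hen, hnn, add_zero]; exact hee) x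
    have l3 := hcon' (e - n) (by
      simp only [map_sub, LinearMap.sub_apply, hne, hen, hnn, sub_zero]; exact hee) x
    simp only [map_add, map_sub, LinearMap.add_apply, LinearMap.sub_apply, hne, hen, hnn,
      add_zero, sub_zero] at l2 l3
    rw [← sub_eq_zero]
    apply d.two_smul_eq
    rw [hnn]
    linear_combination (norm := module) l2 + l3 - (2 : K) • l1
  · push Not at hex
    by_cases hn0 : n = 0
    · intro x; simp [hn0]
    exfalso
    have hz : ∃ z0, d.B n z0 ≠ 0 := by
      by_contra hc2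
      push Not at hc2
      exact hn0 (d.nd n hc2)
    obtain ⟨z0, hz0⟩ := hz
    have hB0 := d.B_zero_of_iso (fun v => d.B n v = 0)
      (fun x y hx hy => by simp only [map_add, hx, hy, add_zero]) hex
    have hspan : ∀ v, ∃ α β : K, v = α • n + β • z0 := by
      have hH : ∀ v, d.B n v = 0 → ∃ α : K, v = α • n := by
        intro v hv
        refine ⟨d.B v z0 / d.B n z0, ?_⟩
        rw [← sub_eq_zero]
        apply d.nd
        intro y
        set β := d.B n y / d.B n z0 with hβ
        have hy : d.B n (y - β • z0) = 0 := by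
          rw [map_sub, map_smul, smul_eq_mul, hβ]
          field_simp
          ring
        have e1 := hB0 v (y - β • z0) hv hy
        have e2 := hy
        rw [map_sub, map_smul, smul_eq_mul] at e1 e2
        simp only [map_sub, map_smul, LinearMap.sub_apply, LinearMap.smul_apply, smul_eq_mul]
        have e3 : d.B v y = β * d.B v z0 := by linear_combination e1
        have e4 : d.B n y = β * d.B n z0 := by linear_combination e2
        rw [e3, e4]
        field_simp
        ring
      intro v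
      obtain ⟨α, hα⟩ := hH (v - (d.B n v / d.B n z0) • z0) (by
        rw [map_sub, map_smul, smul_eq_mul]
        field_simp
        ring)
      exact ⟨α, d.B n v / d.B n z0, by rw [← hα]; abel⟩
    have hnz : d.m n z0 = 0 := by
      apply d.nd
      intro y
      obtain ⟨α, β, rfl⟩ := hspan y
      rw [map_add, map_smul, map_smul, d.skew, d.skew2, d.alt]
      simp
    obtain ⟨p, q, hpq⟩ := hm
    apply hpq
    obtain ⟨α, β, rfl⟩ := hspan p
    obtain ⟨γ, δ, rfl⟩ := hspan q
    simp only [map_add, map_smul, LinearMap.add_apply, LinearMap.smul_apply, d.alt, hnz,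
      d.anti z0 n, smul_zero, neg_zero, add_zero]

theorem exists_aniso {e u0 : V} (hc : d.B e e ≠ 0) (h1 : d.Z e u0) (h2 : d.B e u0 = 0)
    (h3 : u0 ≠ 0) : ∃ u, d.Z e u ∧ d.B e u = 0 ∧ d.B u u ≠ 0 := by
  by_contra hcon
  push Not at hcon
  have hB0 := d.B_zero_of_iso (fun v => d.Z e v ∧ d.B e v = 0)
    (fun x y hx hy => ⟨d.Z_add hx.1 hy.1, by rw [map_add, hx.2, hy.2, add_zero]⟩)
    (fun x hx => hcon x hx.1 hx.2)
  apply h3
  apply d.nd
  intro x
  obtain ⟨a, b, ha, hb, rfl⟩ := d.decomp hc x
  rw [map_add, d.orth hc h1 hb, add_zero]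
  have h4 := hB0 u0 (a - ((d.B e e)⁻¹ * d.B e a) • e) ⟨h1, h2⟩ ⟨by
      rw [sub_eq_add_neg]
      exact d.Z_add ha (d.Z_neg (d.Z_smul _ (d.Z_self e))), by
      rw [map_sub, map_smul, smul_eq_mul]
      field_simp
      ring⟩
  rw [map_sub, map_smul, d.symm u0 e, h2, smul_zero, sub_zero] at h4
  exact h4

theorem exists_aniso_S {e x0 : V} (hc : d.B e e ≠ 0) (hx : d.m e x0 ≠ 0) :
    ∃ s, d.S e s ∧ d.B s s ≠ 0 := by
  by_contra hcon
  push Not at hcon
  have hB0 := d.B_zero_of_iso (fun v => d.S e v) (fun x y hx hy => d.S_add hx hy) hcon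
  exact hx (d.S_nd hc (d.S_m e x0) (fun s hs => hB0 s _ hs (d.S_m e x0)))

end CP

end Pool.Agent.H254R3.NCJ
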