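import Mathlib
import Pool.Agent.H254R3.NCJ.CP2

set_option autoImplicit false

namespace Pool.Agent.H254R3.NCJ

namespace CP

variable {K V : Type} [Field K] [AddCommGroup V] [Module K V] (d : CP K V)

/-- moving `y` (an anisotropic element of `ker L_e`) between the last two arguments -/
theorem t2 {e y s r q : V} (hc : d.B e e ≠ 0) (hZ : d.Z e y) (hy : d.B y y ≠ 0)
    (hQ : ∀ x, d.S e x → d.m y (d.m y x) = -(d.B y y) • x)
    (hs : d.S e s) (hr : d.S e r) (hq : d.S e q) :
    d.B (d.m s (d.m y r)) q = d.B (d.m s r) (d.m y q) := by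
  have key : ∀ q', d.S e q' →
      d.B (d.m s (d.m y r)) (d.m y q') = -(d.B y y) * d.B (d.m s r) q' := by
    intro q' hq'
    have h := d.P y s r
    rw [d.orth hc hZ hs, hQ r hr, map_smul] at h
    have h1 : d.m y (d.m y (d.m s r)) + d.m y (d.m s (d.m y r)) = 0 := by
      linear_combination (norm := module) h
    have h2 := congrArg (fun v => d.B v q') h1
    simp only [map_add, map_zero, LinearMap.add_apply, LinearMap.zero_apply] at h2
    rw [d.skew2 y (d.m y (d.m s r)) q', d.skew2 y (d.m s r) (d.m y q'), hQ q' hq',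
      d.skew2 y (d.m s (d.m y r)) q', map_smul, smul_eq_mul] at h2
    linear_combination -h2
  have h3 := key (d.m y q) (d.S2 hc hZ hq)
  rw [hQ q hq, map_smul, smul_eq_mul] at h3
  have h4 : d.B y y * (d.B (d.m s (d.m y r)) q - d.B (d.m s r) (d.m y q)) = 0 := by
    linear_combination -h3
  have h5 := (mul_eq_zero.mp h4).resolve_left hy
  linear_combination h5

theorem t3 {e y s r q : V} (hc : d.B e e ≠ 0) (hZ : d.Z e y) (hy : d.B y y ≠ 0)
    (hQ : ∀ x, d.S e x → d.m y (d.m y x) = -(d.B y y) • x)
    (hs : d.S e s) (hr : d.S e r) (hq : d.S e q) :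
    d.B (d.m (d.m y s) r) q = d.B (d.m s r) (d.m y q) := by
  rw [d.anti (d.m y s) r, map_neg, LinearMap.neg_apply, d.t2 hc hZ hy hQ hr hs hq,
    d.anti r s, map_neg, LinearMap.neg_apply, neg_neg]

theorem psi0 {e u s r q : V} (hc : d.B e e ≠ 0) (hu : d.Z e u) (hu0 : d.B e u = 0)
    (hu1 : d.B u u ≠ 0) (hs : d.S e s) (hr : d.S e r) (hq : d.S e q) :
    d.B (d.m s r) q = 0 := by
  have hQe : ∀ x, d.S e x → d.m e (d.m e x) = -(d.B e e) • x := fun x hx => hx
  have hQu : ∀ x, d.S e x → d.m u (d.m u x) = -(d.B u u) • x := fun x hx => d.Q hc hu hu0 hx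
  have main : ∀ q', d.S e q' → d.B (d.m s r) (d.m e (d.m u q')) = 0 := by
    intro q' hq'
    have a1 := d.t3 hc (d.Z_self e) hc hQe hs hr (d.S2 hc hu hq')
    have a2 := d.t2 hc hu hu1 hQu (d.S_m e s) hr hq'
    have a3 := d.t3 hc (d.Z_self e) hc hQe hs (d.S2 hc hu hr) hq'
    have a4 := d.t2 hc hu hu1 hQu hs hr (d.S_m e q')
    rw [d.AC hc hu hu0 hq', map_neg] at a4
    have h2 : (2 : K) * d.B (d.m s r) (d.m e (d.m u q')) = 0 := by
      linear_combination a4 + a3 - a1 - a2 - (0 : K) * a1
    exact (mul_eq_zero.mp h2).resolve_left d.two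
  have h1 := main ((d.B e e * d.B u u)⁻¹ • d.m u (d.m e q))
    (d.S_smul _ (d.S2 hc hu (d.S_m e q)))
  have h3 : d.m e (d.m u ((d.B e e * d.B u u)⁻¹ • d.m u (d.m e q))) = q := by
    rw [map_smul, hQu _ (d.S_m e q), map_smul, map_smul, hQe q hq, smul_smul, smul_smul]
    have : (d.B e e * d.B u u)⁻¹ * -(d.B u u) * -(d.B e e) = 1 := by
      field_simp
    rw [this, one_smul]
  rw [h3] at h1
  exact h1

/-- In the two-dimensional kernel case the space has dimension six. -/
theorem six {e u : V} (hm : ∃ x y, d.m x y ≠ 0) (hc : d.B e e ≠ 0) (hu : d.Z e u)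
    (hu0 : d.B e u = 0) (hu1 : d.B u u ≠ 0) : Module.finrank K V = 6 := by
  obtain ⟨x0, hx0⟩ := d.NE hc hm
  obtain ⟨s, hs, hs1⟩ := d.exists_aniso_S hc hx0
  have hQu : ∀ x, d.S e x → d.m u (d.m u x) = -(d.B u u) • x := fun x hx => d.Q hc hu hu0 hx
  have hes : d.S e (d.m e s) := d.S_m e s
  have hus : d.S e (d.m u s) := d.S2 hc hu hs
  have heus : d.S e (d.m e (d.m u s)) := d.S_m e _
  -- orthogonality
  have o_s_es : d.B s (d.m e s) = 0 := by rw [d.symm]; exact d.skew e s
  have o_s_us : d.B s (d.m u s) = 0 := by rw [d.symm]; exact d.skew u s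
  have o_es_us : d.B (d.m e s) (d.m u s) = 0 := by
    have h1 : d.B (d.m e s) (d.m u s) = -d.B s (d.m e (d.m u s)) := d.skew2 e s _
    have h2 : d.B (d.m u s) (d.m e s) = -d.B s (d.m u (d.m e s)) := d.skew2 u s _
    rw [d.AC hc hu hu0 hs, map_neg, neg_neg, d.symm] at h2
    have h3 : (2 : K) * d.B (d.m e s) (d.m u s) = 0 := by linear_combination h1 + h2
    exact (mul_eq_zero.mp h3).resolve_left d.two
  have o_s_eus : d.B s (d.m e (d.m u s)) = 0 := by
    have h1 : d.B (d.m e s) (d.m u s) = -d.B s (d.m e (d.m u s)) := d.skew2 e s _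
    rw [o_es_us] at h1
    linear_combination h1
  have o_es_eus : d.B (d.m e s) (d.m e (d.m u s)) = 0 := by
    rw [d.skew3 e (d.m e s), show d.m e (d.m e s) = _ from hs, map_smul, LinearMap.smul_apply,
      o_s_us]
    simp
  have o_us_eus : d.B (d.m u s) (d.m e (d.m u s)) = 0 := by rw [d.symm]; exact d.skew e _
  have n_es : d.B (d.m e s) (d.m e s) = d.B e e * d.B s s := by
    rw [d.skew2 e s, show d.m e (d.m e s) = _ from hs, map_smul, smul_eq_mul]
    ring
  have n_us : d.B (d.m u s) (d.m u s) = d.B u u * d.B s s := by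
    rw [d.skew2 u s, hQu s hs, map_smul, smul_eq_mul]
    ring
  have n_eus : d.B (d.m e (d.m u s)) (d.m e (d.m u s)) = d.B e e * (d.B u u * d.B s s) := by
    rw [d.skew2 e (d.m u s), show d.m e (d.m e (d.m u s)) = _ from hus, map_smul, smul_eq_mul,
      n_us]
    ring
  -- kernel of L_e
  have hker : ∀ a, d.Z e a → a = ((d.B e e)⁻¹ * d.B e a) • e + ((d.B u u)⁻¹ * d.B u a) • u := by
    intro a ha
    have h := d.dim2 hc hx0 hu hu0 hu1
      (w := a - ((d.B e e)⁻¹ * d.B e a) • e - ((d.B u u)⁻¹ * d.B u a) • u) (by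
        rw [sub_eq_add_neg, sub_eq_add_neg]
        exact d.Z_add (d.Z_add ha (d.Z_neg (d.Z_smul _ (d.Z_self e))))
          (d.Z_neg (d.Z_smul _ hu))) (by
        rw [map_sub, map_sub, map_smul, map_smul, hu0, smul_eq_mul, smul_zero, sub_zero]
        field_simp
        ring) (by
        rw [map_sub, map_sub, map_smul, map_smul, d.symm u e, hu0, smul_eq_mul, smul_eq_mul,
          mul_zero, sub_zero]
        field_simp
        ring)
    linear_combination (norm := module) h
  have hort : ∀ v : V, d.B v e = 0 → d.B v u = 0 → (∀ q, d.S e q → d.B v q = 0) → v = 0 := by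
    intro v h1 h2 h3
    apply d.nd
    intro y
    obtain ⟨a, b, ha, hb, rfl⟩ := d.decomp hc y
    rw [map_add, h3 b hb, hker a ha, map_add, map_smul, map_smul, h1, h2]
    simp
  have hZb6 : d.Z s (d.m e (d.m u s)) := by
    apply hort
    · rw [d.skew2, d.anti s e, map_neg, neg_neg, d.symm, o_es_eus]
    · rw [d.skew2, d.anti s u, map_neg, neg_neg, d.symm, o_us_eus]
    · intro q hq
      exact d.psi0 hc hu hu0 hu1 hs heus hq
  have hmse : d.m s e ≠ 0 := by
    rw [d.anti, neg_ne_zero]
    intro h
    rw [h] at n_es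
    simp only [map_zero, LinearMap.zero_apply] at n_es
    exact (mul_ne_zero hc hs1) n_es.symm
  have hr : ∀ r, d.S e r → d.B s r = 0 → d.B (d.m e s) r = 0 → d.B (d.m u s) r = 0 →
      d.B (d.m e (d.m u s)) r = 0 → r = 0 := by
    intro r hr h3 h4 h5 h6
    have hZr : d.Z s r := by
      apply hort
      · rw [d.skew2, d.anti s e, map_neg, neg_neg, d.symm, h4]
      · rw [d.skew2, d.anti s u, map_neg, neg_neg, d.symm, h5]
      · intro q hq
        exact d.psi0 hc hu hu0 hu1 hs hr hq
    exact d.dim2 hs1 hmse hZb6 o_s_eus (by rw [n_eus]; exact mul_ne_zero hc (mul_ne_zero hu1 hs1))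
      hZr h3 h6
  -- the basis
  let b : Fin 6 → V := ![e, u, s, d.m e s, d.m u s, d.m e (d.m u s)]
  have hBb : ∀ i j, i ≠ j → d.B (b i) (b j) = 0 := by
    have p1 := d.orth hc (d.Z_self e) hs
    have p2 := d.orth hc (d.Z_self e) hes
    have p3 := d.orth hc (d.Z_self e) hus
    have p4 := d.orth hc (d.Z_self e) heus
    have q1 := d.orth hc hu hs
    have q2 := d.orth hc hu hes
    have q3 := d.orth hc hu hus
    have q4 := d.orth hc hu heus
    have sy : ∀ x y, d.B x y = 0 → d.B y x = 0 := fun x y h => by rw [d.symm]; exact h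
    intro i j hij
    fin_cases i <;> fin_cases j <;> first
      | exact absurd rfl hij
      | exact hu0
      | exact sy _ _ hu0
      | exact p1
      | exact p2
      | exact p3
      | exact p4
      | exact q1
      | exact q2
      | exact q3
      | exact q4
      | exact sy _ _ p1
      | exact sy _ _ p2
      | exact sy _ _ p3
      | exact sy _ _ p4
      | exact sy _ _ q1
      | exact sy _ _ q2
      | exact sy _ _ q3
      | exact sy _ _ q4
      | exact o_s_es
      | exact o_s_us
      | exact o_s_eus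
      | exact o_es_us
      | exact o_es_eus
      | exact o_us_eus
      | exact sy _ _ o_s_es
      | exact sy _ _ o_s_us
      | exact sy _ _ o_s_eus
      | exact sy _ _ o_es_us
      | exact sy _ _ o_es_eus
      | exact sy _ _ o_us_eus
  have hBn : ∀ i, d.B (b i) (b i) ≠ 0 := by
    intro i
    fin_cases i
    · exact hc
    · exact hu1
    · exact hs1
    · change d.B (d.m e s) (d.m e s) ≠ 0
      rw [n_es]; exact mul_ne_zero hc hs1
    · change d.B (d.m u s) (d.m u s) ≠ 0
      rw [n_us]; exact mul_ne_zero hu1 hs1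
    · change d.B (d.m e (d.m u s)) (d.m e (d.m u s)) ≠ 0
      rw [n_eus]; exact mul_ne_zero hc (mul_ne_zero hu1 hs1)
  have hli : LinearIndependent K b := by
    rw [Fintype.linearIndependent_iff]
    intro g hg i
    have h1 := congrArg (d.B (b i)) hg
    rw [map_sum, map_zero, Finset.sum_eq_single i] at h1
    · rw [map_smul, smul_eq_mul] at h1
      exact (mul_eq_zero.mp h1).resolve_right (hBn i)
    · intro j _ hj
      rw [map_smul, hBb i j (Ne.symm hj), smul_zero]
    · intro h; exact absurd (Finset.mem_univ i) h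
  have hproj : ∀ v, v = ∑ i, ((d.B (b i) (b i))⁻¹ * d.B (b i) v) • b i := by
    intro v
    set w := v - ∑ i, ((d.B (b i) (b i))⁻¹ * d.B (b i) v) • b i with hw
    have hwi : ∀ i, d.B (b i) w = 0 := by
      intro i
      rw [hw, map_sub, map_sum, Finset.sum_eq_single i]
      · rw [map_smul, smul_eq_mul]
        have := hBn i
        field_simp
        ring
      · intro j _ hj
        rw [map_smul, hBb i j (Ne.symm hj), smul_zero]
      · intro h; exact absurd (Finset.mem_univ i) h
    have hw0 : w = 0 := by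
      obtain ⟨a, c, ha, hc', hac⟩ := d.decomp hc w
      have ha0 : a = 0 := by
        rw [hker a ha]
        have e1 : d.B e a = 0 := by
          have := hwi 0
          change d.B e w = 0 at this
          rw [hac, map_add, d.Be_S hc hc', add_zero] at this
          exact this
        have e2 : d.B u a = 0 := by
          have := hwi 1
          change d.B u w = 0 at this
          rw [hac, map_add, d.orth hc hu hc', add_zero] at this
          exact this
        rw [e1, e2]
        simp
      rw [ha0, zero_add] at hac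
      have hSw : d.S e w := hac ▸ hc'
      exact hr w hSw (hwi 2) (hwi 3) (hwi 4) (hwi 5)
    exact sub_eq_zero.mp hw0
  have hsp : ⊤ ≤ Submodule.span K (Set.range b) := by
    intro v _
    rw [hproj v]
    exact Submodule.sum_mem _ fun i _ =>
      Submodule.smul_mem _ _ (Submodule.subset_span ⟨i, rfl⟩)
  rw [Module.finrank_eq_card_basis (Module.Basis.mk hli hsp)]
  simp

/-- **Classification**: not alternative and nonzero product implies dimension six. -/
theorem main (hm : ∃ x y, d.m x y ≠ 0) (hna : ∃ y, ¬ d.Law y) : Module.finrank K V = 6 := by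
  obtain ⟨e, u0, hc, h1, h2, h3⟩ := d.exists_two_dim hm hna
  obtain ⟨u, hu, hu0, hu1⟩ := d.exists_aniso hc h1 h2 h3
  exact d.six hm hc hu hu0 hu1

end CP

end Pool.Agent.H254R3.NCJ
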