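import Mathlib

/-!
The split colour algebra over a commutative ring / field `K`:
`K ⊕ K³ ⊕ K³` with product
`(a,u,f)(b,v,g) = (ab - u·g - f·v, a v + b u + f × g, a g + b f + 2 u × v)`.
-/

set_option autoImplicit false

namespace Pool.Agent.H254R3.NCJ

/-- the colour algebra: coordinates `0` = scalar, `1,2,3` = `u`, `4,5,6` = `f` -/
def Col (K : Type) : Type := Fin 7 → K

variable {K : Type}

instance [Field K] : AddCommGroup (Col K) := inferInstanceAs (AddCommGroup (Fin 7 → K))

instance (F : Type) [Field F] [Field K] [Algebra F K] : Module F (Col K) :=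
  inferInstanceAs (Module F (Fin 7 → K))

@[ext] theorem Col.ext {x y : Col K} (h : ∀ i, x i = y i) : x = y := funext h

@[simp] theorem Col.add_apply [Field K] (x y : Col K) (i : Fin 7) : (x + y) i = x i + y i := rfl
@[simp] theorem Col.neg_apply [Field K] (x : Col K) (i : Fin 7) : (-x) i = -(x i) := rfl
@[simp] theorem Col.sub_apply [Field K] (x y : Col K) (i : Fin 7) : (x - y) i = x i - y i := rfl
@[simp] theorem Col.zero_apply [Field K] (i : Fin 7) : (0 : Col K) i = 0 := rfl
@[simp] theorem Col.smul_apply {F : Type} [Field F] [Field K] [Algebra F K] (c : F) (x : Col K)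
    (i : Fin 7) : (c • x) i = c • x i := rfl

/-- the product of the colour algebra -/
def Col.mul [Field K] (x y : Col K) : Col K := fun i =>
  ![x 0 * y 0 - (x 1 * y 4 + x 2 * y 5 + x 3 * y 6) - (x 4 * y 1 + x 5 * y 2 + x 6 * y 3),
    x 0 * y 1 + y 0 * x 1 + (x 5 * y 6 - x 6 * y 5),
    x 0 * y 2 + y 0 * x 2 + (x 6 * y 4 - x 4 * y 6),
    x 0 * y 3 + y 0 * x 3 + (x 4 * y 5 - x 5 * y 4),
    x 0 * y 4 + y 0 * x 4 + 2 * (x 2 * y 3 - x 3 * y 2),
    x 0 * y 5 + y 0 * x 5 + 2 * (x 3 * y 1 - x 1 * y 3),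
    x 0 * y 6 + y 0 * x 6 + 2 * (x 1 * y 2 - x 2 * y 1)] i

instance [Field K] : Mul (Col K) := ⟨Col.mul⟩

section
variable [Field K] (x y : Col K)
theorem Col.mul0 : (x * y) 0 =
  x 0 * y 0 - (x 1 * y 4 + x 2 * y 5 + x 3 * y 6) - (x 4 * y 1 + x 5 * y 2 + x 6 * y 3) := rfl
theorem Col.mul1 : (x * y) 1 = x 0 * y 1 + y 0 * x 1 + (x 5 * y 6 - x 6 * y 5) := rfl
theorem Col.mul2 : (x * y) 2 = x 0 * y 2 + y 0 * x 2 + (x 6 * y 4 - x 4 * y 6) := rfl
theorem Col.mul3 : (x * y) 3 = x 0 * y 3 + y 0 * x 3 + (x 4 * y 5 - x 5 * y 4) := rfl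
theorem Col.mul4 : (x * y) 4 = x 0 * y 4 + y 0 * x 4 + 2 * (x 2 * y 3 - x 3 * y 2) := rfl
theorem Col.mul5 : (x * y) 5 = x 0 * y 5 + y 0 * x 5 + 2 * (x 3 * y 1 - x 1 * y 3) := rfl
theorem Col.mul6 : (x * y) 6 = x 0 * y 6 + y 0 * x 6 + 2 * (x 1 * y 2 - x 2 * y 1) := rfl
end

/-- componentwise proof of an identity -/
theorem Col.ext7 {x y : Col K} (h0 : x 0 = y 0) (h1 : x 1 = y 1) (h2 : x 2 = y 2)
    (h3 : x 3 = y 3) (h4 : x 4 = y 4) (h5 : x 5 = y 5) (h6 : x 6 = y 6) : x = y := by
  funext i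
  fin_cases i <;> assumption

instance [Field K] : NonUnitalNonAssocRing (Col K) where
  left_distrib x y z := by
    apply Col.ext7 <;>
    simp only [Col.mul0, Col.mul1, Col.mul2, Col.mul3, Col.mul4, Col.mul5, Col.mul6,
      Col.add_apply, Col.neg_apply, Col.sub_apply, Col.zero_apply] <;> ring
  right_distrib x y z := by
    apply Col.ext7 <;>
    simp only [Col.mul0, Col.mul1, Col.mul2, Col.mul3, Col.mul4, Col.mul5, Col.mul6,
      Col.add_apply, Col.neg_apply, Col.sub_apply, Col.zero_apply] <;> ring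
  zero_mul x := by
    apply Col.ext7 <;>
    simp only [Col.mul0, Col.mul1, Col.mul2, Col.mul3, Col.mul4, Col.mul5, Col.mul6,
      Col.add_apply, Col.neg_apply, Col.sub_apply, Col.zero_apply] <;> ring
  mul_zero x := by
    apply Col.ext7 <;>
    simp only [Col.mul0, Col.mul1, Col.mul2, Col.mul3, Col.mul4, Col.mul5, Col.mul6,
      Col.add_apply, Col.neg_apply, Col.sub_apply, Col.zero_apply] <;> ring

instance (F : Type) [Field F] [Field K] [Algebra F K] : IsScalarTower F (Col K) (Col K) where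
  smul_assoc c x y := by
    apply Col.ext7 <;>
    simp only [smul_eq_mul, Col.mul0, Col.mul1, Col.mul2, Col.mul3, Col.mul4, Col.mul5, Col.mul6,
      Col.smul_apply, Algebra.smul_def] <;> ring

instance (F : Type) [Field F] [Field K] [Algebra F K] : SMulCommClass F (Col K) (Col K) where
  smul_comm c x y := by
    apply Col.ext7 <;>
    simp only [smul_eq_mul, Col.mul0, Col.mul1, Col.mul2, Col.mul3, Col.mul4, Col.mul5, Col.mul6,
      Col.smul_apply, Algebra.smul_def] <;> ring

theorem Col.flexible [Field K] (x y : Col K) : (x * y) * x = x * (y * x) := by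
    apply Col.ext7 <;>
    simp only [Col.mul0, Col.mul1, Col.mul2, Col.mul3, Col.mul4, Col.mul5, Col.mul6,
      Col.add_apply, Col.neg_apply, Col.sub_apply, Col.zero_apply] <;> ring

theorem Col.jordan [Field K] (x y : Col K) : ((x * x) * y) * x = (x * x) * (y * x) := by
    apply Col.ext7 <;>
    simp only [Col.mul0, Col.mul1, Col.mul2, Col.mul3, Col.mul4, Col.mul5, Col.mul6,
      Col.add_apply, Col.neg_apply, Col.sub_apply, Col.zero_apply] <;> ring

theorem Col.commIdentity [Field K] (x y : Col K) :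
    ((x * y - y * x) * y) * y = (x * y - y * x) * (y * y) := by
    apply Col.ext7 <;>
    simp only [Col.mul0, Col.mul1, Col.mul2, Col.mul3, Col.mul4, Col.mul5, Col.mul6,
      Col.add_apply, Col.neg_apply, Col.sub_apply, Col.zero_apply] <;> ring

/-- basis vectors -/
def Col.b [Field K] (i : Fin 7) : Col K := Pi.single i (1 : K)

/-- scalars -/
def Col.s [Field K] (c : K) : Col K := Pi.single (0 : Fin 7) c

end Pool.Agent.H254R3.NCJ
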