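import Mathlib

/-! Definitions of the problem `MP_52e257_al` (all algebras are nonassociative). -/

set_option autoImplicit false

namespace Pool.Agent.H254R3.NCJ

/-- noncommutative Jordan algebra: `(x,y,x) = 0` and `(x²,y,x) = 0` -/
def IsNCJordan (A : Type) [NonUnitalNonAssocRing A] : Prop :=
  (∀ x y : A, (x * y) * x = x * (y * x)) ∧ ∀ x y : A, ((x * x) * y) * x = (x * x) * (y * x)

/-- the identity `([x,y],y,y) = 0` -/
def CommIdentity (A : Type) [NonUnitalNonAssocRing A] : Prop :=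
  ∀ x y : A, ((x * y - y * x) * y) * y = (x * y - y * x) * (y * y)

/-- alternative algebra: `(x,x,y) = 0 = (y,x,x)` -/
def IsAlternative (A : Type) [NonUnitalNonAssocRing A] : Prop :=
  ∀ x y : A, (x * x) * y = x * (x * y) ∧ (y * x) * x = y * (x * x)

/-- (linear) Jordan algebra: commutative and `(x²,y,x) = 0` -/
def IsJordanAlg (A : Type) [NonUnitalNonAssocRing A] : Prop :=
  (∀ x y : A, x * y = y * x) ∧ ∀ x y : A, ((x * x) * y) * x = (x * x) * (y * x)

/-- simple algebra over `F`: `A² ≠ 0` and the only two-sided ideals are `0` and `A` -/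
def IsSimpleAlg (F A : Type) [Field F] [NonUnitalNonAssocRing A] [Module F A] : Prop :=
  (∃ x y : A, x * y ≠ 0) ∧
    ∀ I : Submodule F A, (∀ a ∈ I, ∀ x : A, x * a ∈ I ∧ a * x ∈ I) → I = ⊥ ∨ I = ⊤

end Pool.Agent.H254R3.NCJ
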