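import Mathlib
import Pool.Agent.H254R3.NCJ.Defs
import Pool.Agent.H254R3.NCJ.CP3

set_option autoImplicit false

namespace Pool.Agent.H254R3.NCJ

/-- quadratic algebra over `K`: `x² - t(x) x + n(x) 1 = 0` with a linear trace `t`, `t(1) = 2` -/
def IsQuadratic (K A : Type) [Field K] [NonAssocRing A] [Module K A] : Prop :=
  ∃ t : A →ₗ[K] K, t 1 = 2 ∧ ∀ x : A, ∃ n : K, x * x = t x • x - n • (1 : A)

section

variable {K A : Type} [Field K] [NonAssocRing A] [Module K A] [IsScalarTower K A A]
  [SMulCommClass K A A] (t : A →ₗ[K] K)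

/-- the form on `ker t` -/
noncomputable def qB : LinearMap.ker t →ₗ[K] LinearMap.ker t →ₗ[K] K :=
  LinearMap.mk₂ K (fun x y => -(t ((x : A) * y)) / 2)
    (by intro x y z; simp only [Submodule.coe_add, add_mul, map_add]; ring)
    (by intro c x y
        simp only [Submodule.coe_smul, smul_mul_assoc, map_smul, smul_eq_mul]; ring)
    (by intro x y z; simp only [Submodule.coe_add, mul_add, map_add]; ring)
    (by intro c x y
        simp only [Submodule.coe_smul, mul_smul_comm, map_smul, smul_eq_mul]; ring)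

/-- projection to `ker t` -/
noncomputable def qp (h1 : t 1 = 2) (h2 : (2 : K) ≠ 0) : A →ₗ[K] LinearMap.ker t :=
  LinearMap.codRestrict (LinearMap.ker t)
    (LinearMap.id - (LinearMap.toSpanSingleton K A (1 : A)).comp ((2 : K)⁻¹ • t)) (by
      intro a
      rw [LinearMap.mem_ker]
      simp only [LinearMap.sub_apply, LinearMap.id_apply, LinearMap.comp_apply,
        LinearMap.smul_apply, LinearMap.toSpanSingleton_apply, map_sub, map_smul, h1, smul_eq_mul]
      field_simp
      ring)

theorem qp_coe (h1 : t 1 = 2) (h2 : (2 : K) ≠ 0) (a : A) :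
    ((qp t h1 h2 a : LinearMap.ker t) : A) = a - ((2 : K)⁻¹ * t a) • (1 : A) := by
  simp [qp]

/-- the product on `ker t` -/
noncomputable def qm (h1 : t 1 = 2) (h2 : (2 : K) ≠ 0) :
    LinearMap.ker t →ₗ[K] LinearMap.ker t →ₗ[K] LinearMap.ker t :=
  LinearMap.mk₂ K (fun x y => qp t h1 h2 ((x : A) * y))
    (by intro x y z; simp only [Submodule.coe_add, add_mul, map_add])
    (by intro c x y; simp only [Submodule.coe_smul, smul_mul_assoc, map_smul])
    (by intro x y z; simp only [Submodule.coe_add, mul_add, map_add])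
    (by intro c x y; simp only [Submodule.coe_smul, mul_smul_comm, map_smul])

theorem q_mul (h1 : t 1 = 2) (h2 : (2 : K) ≠ 0) (x y : LinearMap.ker t) :
    (x : A) * y = -(qB t x y) • (1 : A) + (qm t h1 h2 x y : A) := by
  have : ((qm t h1 h2 x y : LinearMap.ker t) : A) =
      (x : A) * y - ((2 : K)⁻¹ * t ((x : A) * y)) • (1 : A) := qp_coe t h1 h2 _
  rw [this]
  have hB : qB t x y = -(t ((x : A) * y)) / 2 := rfl
  rw [hB]
  have : -(-(t ((x : A) * y)) / 2) = (2 : K)⁻¹ * t ((x : A) * y) := by field_simp
  rw [this]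
  abel

theorem t_coe (x : LinearMap.ker t) : t (x : A) = 0 := x.2

theorem q_alt (h1 : t 1 = 2) (h2 : (2 : K) ≠ 0)
    (hq : ∀ x : A, ∃ n : K, x * x = t x • x - n • (1 : A)) (x : LinearMap.ker t) :
    qm t h1 h2 x x = 0 := by
  apply Subtype.ext
  have h := q_mul t h1 h2 x x
  obtain ⟨n, hn⟩ := hq x
  rw [t_coe, zero_smul, zero_sub] at hn
  have hB : qB t x x = -(t ((x : A) * x)) / 2 := rfl
  have hB2 : qB t x x = n := by
    rw [hB, hn, map_neg, map_smul, h1, smul_eq_mul]
    field_simp
  rw [hn, hB2] at h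
  change ((qm t h1 h2 x x : LinearMap.ker t) : A) = 0
  linear_combination (norm := module) -h

theorem q_anti (h1 : t 1 = 2) (h2 : (2 : K) ≠ 0)
    (hq : ∀ x : A, ∃ n : K, x * x = t x • x - n • (1 : A)) (x y : LinearMap.ker t) :
    qm t h1 h2 y x = -qm t h1 h2 x y := by
  have h := q_alt t h1 h2 hq (x + y)
  simp only [map_add, LinearMap.add_apply, q_alt t h1 h2 hq, zero_add, add_zero] at h
  exact eq_neg_of_add_eq_zero_left h

theorem q_flex (h1 : t 1 = 2) (h2 : (2 : K) ≠ 0)
    (hq : ∀ x : A, ∃ n : K, x * x = t x • x - n • (1 : A))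
    (hf : ∀ x y : A, (x * y) * x = x * (y * x)) (x y : LinearMap.ker t) :
    qB t x y = qB t y x ∧ qB t x (qm t h1 h2 x y) + qB t (qm t h1 h2 x y) x = 0 := by
  have h := hf x y
  rw [q_mul t h1 h2 x y, q_mul t h1 h2 y x, q_anti t h1 h2 hq x y] at h
  set M := qm t h1 h2 x y with hM
  have e1 := q_mul t h1 h2 M x
  have e2 := q_mul t h1 h2 x M
  rw [q_anti t h1 h2 hq M x] at e2
  rw [add_mul, mul_add, smul_mul_assoc, mul_smul_comm, one_mul, mul_one, e1] at h
  rw [Submodule.coe_neg, mul_neg, e2, Submodule.coe_neg] at h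
  have h3 : (qB t y x - qB t x y) • (x : A) = (qB t x M + qB t M x) • (1 : A) := by
    linear_combination (norm := module) h
  have h4 := congrArg t h3
  rw [map_smul, map_smul, t_coe, h1, smul_zero, smul_eq_mul] at h4
  have h5 : qB t x M + qB t M x = 0 := (mul_eq_zero.mp h4.symm).resolve_right h2
  refine ⟨?_, h5⟩
  rw [h5, zero_smul] at h3
  rcases smul_eq_zero.mp h3 with h6 | h6
  · exact (sub_eq_zero.mp h6).symm
  · have h7 : x = 0 := Subtype.ext h6
    rw [h7]
    simp

/-- the radical is an ideal, so the form is nondegenerate for a simple algebra -/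
theorem q_nd (h1 : t 1 = 2) (h2 : (2 : K) ≠ 0)
    (hq : ∀ x : A, ∃ n : K, x * x = t x • x - n • (1 : A))
    (hf : ∀ x y : A, (x * y) * x = x * (y * x)) (hs : IsSimpleAlg K A)
    (x : LinearMap.ker t) (hx : ∀ y, qB t x y = 0) : x = 0 := by
  have symm := fun x y => (q_flex t h1 h2 hq hf x y).1
  have skew : ∀ x y : LinearMap.ker t, qB t (qm t h1 h2 x y) x = 0 := by
    intro x y
    have h := (q_flex t h1 h2 hq hf x y).2
    rw [symm x] at h
    have h3 : (2 : K) * qB t (qm t h1 h2 x y) x = 0 := by linear_combination h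
    exact (mul_eq_zero.mp h3).resolve_left h2
  have skew' : ∀ x y z : LinearMap.ker t,
      qB t (qm t h1 h2 x y) z = qB t y (qm t h1 h2 z x) := by
    intro x y z
    have h := skew (x + z) y
    simp only [map_add, LinearMap.add_apply, skew, zero_add, add_zero] at h
    have h' := skew (z + y) x
    simp only [map_add, LinearMap.add_apply, skew, zero_add, add_zero] at h'
    rw [q_anti t h1 h2 hq x y, map_neg, LinearMap.neg_apply] at h'
    rw [symm y]
    linear_combination -h'
  -- the radical
  let N : Submodule K A :=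
    { carrier := {a | t a = 0 ∧ ∀ w : LinearMap.ker t, t (a * w) = 0}
      add_mem' := by
        rintro a b ⟨ha, ha'⟩ ⟨hb, hb'⟩
        exact ⟨by rw [map_add, ha, hb, add_zero], fun w => by
          rw [add_mul, map_add, ha' w, hb' w, add_zero]⟩
      zero_mem' := ⟨map_zero t, fun w => by rw [zero_mul, map_zero]⟩
      smul_mem' := by
        rintro c a ⟨ha, ha'⟩
        exact ⟨by rw [map_smul, ha, smul_zero], fun w => by
          rw [smul_mul_assoc, map_smul, ha' w, smul_zero]⟩ }
  have hNB : ∀ v : LinearMap.ker t, (∀ y, qB t v y = 0) → (v : A) ∈ N := by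
    intro v hv
    refine ⟨v.2, fun w => ?_⟩
    have h := hv w
    have hB : qB t v w = -(t ((v : A) * w)) / 2 := rfl
    rw [hB] at h
    have h3 := (div_eq_zero_iff.mp h).resolve_right h2
    exact neg_eq_zero.mp h3
  have hideal : ∀ a ∈ N, ∀ z : A, z * a ∈ N ∧ a * z ∈ N := by
    rintro a ⟨ha, ha'⟩ z
    let v : LinearMap.ker t := ⟨a, ha⟩
    have hv : ∀ y, qB t v y = 0 := by
      intro y
      have hB : qB t v y = -(t ((v : A) * y)) / 2 := rfl
      rw [hB, ha' y]
      simp
    let w : LinearMap.ker t := qp t h1 h2 z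
    have hz : z = ((2 : K)⁻¹ * t z) • (1 : A) + (w : A) := by
      have := qp_coe t h1 h2 z
      rw [show (w : A) = _ from this]
      abel
    have hmv : ((qm t h1 h2 v w : LinearMap.ker t) : A) ∈ N := by
      apply hNB
      intro y
      rw [q_anti t h1 h2 hq w v, map_neg, LinearMap.neg_apply, skew', hv, neg_zero]
    have e1 : a * z = ((2 : K)⁻¹ * t z) • a + ((qm t h1 h2 v w : LinearMap.ker t) : A) := by
      conv_lhs => rw [hz]
      rw [mul_add, mul_smul_comm, mul_one]
      have h := q_mul t h1 h2 v w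
      rw [hv w, neg_zero, zero_smul, zero_add] at h
      rw [show a * (w : A) = _ from h]
    have e2 : z * a = ((2 : K)⁻¹ * t z) • a - ((qm t h1 h2 v w : LinearMap.ker t) : A) := by
      conv_lhs => rw [hz]
      rw [add_mul, smul_mul_assoc, one_mul]
      have h := q_mul t h1 h2 w v
      rw [symm w v, hv w, neg_zero, zero_smul, zero_add, q_anti t h1 h2 hq v w,
        Submodule.coe_neg] at h
      rw [show (w : A) * a = _ from h]
      abel
    exact ⟨by rw [e2]; exact N.sub_mem (N.smul_mem _ ⟨ha, ha'⟩) hmv,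
      by rw [e1]; exact N.add_mem (N.smul_mem _ ⟨ha, ha'⟩) hmv⟩
  rcases hs.2 N hideal with h | h
  · have h3 : (x : A) ∈ N := hNB x hx
    rw [h, Submodule.mem_bot] at h3
    exact Subtype.ext h3
  · exfalso
    have h3 : (1 : A) ∈ N := by rw [h]; trivial
    exact h2 (h1 ▸ h3.1)

/-- the vector data of a simple flexible quadratic algebra with `([x,y],y,y) = 0` -/
noncomputable def toCP (h1 : t 1 = 2) (h2 : (2 : K) ≠ 0)
    (hq : ∀ x : A, ∃ n : K, x * x = t x • x - n • (1 : A))
    (hf : ∀ x y : A, (x * y) * x = x * (y * x)) (hs : IsSimpleAlg K A)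
    (hC : CommIdentity A) : CP K (LinearMap.ker t) where
  B := qB t
  m := qm t h1 h2
  symm := fun x y => (q_flex t h1 h2 hq hf x y).1
  nd := q_nd t h1 h2 hq hf hs
  alt := q_alt t h1 h2 hq
  skew := by
    intro x y
    have h := (q_flex t h1 h2 hq hf y x).2
    rw [(q_flex t h1 h2 hq hf y _).1] at h
    have h3 : (2 : K) * qB t (qm t h1 h2 y x) y = 0 := by linear_combination h
    have h4 := (mul_eq_zero.mp h3).resolve_left h2
    rw [q_anti t h1 h2 hq x y, map_neg, LinearMap.neg_apply, neg_eq_zero] at h4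
    exact h4
  cub := by
    have skew : ∀ x y : LinearMap.ker t, qB t (qm t h1 h2 x y) y = 0 := by
      intro x y
      have h := (q_flex t h1 h2 hq hf y x).2
      rw [(q_flex t h1 h2 hq hf y _).1] at h
      have h3 : (2 : K) * qB t (qm t h1 h2 y x) y = 0 := by linear_combination h
      have h4 := (mul_eq_zero.mp h3).resolve_left h2
      rw [q_anti t h1 h2 hq x y, map_neg, LinearMap.neg_apply, neg_eq_zero] at h4
      exact h4
    intro x y
    have h := hC x y
    have symm := (q_flex t h1 h2 hq hf x y).1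
    have e1 : (x : A) * y - y * x = (2 : K) • ((qm t h1 h2 x y : LinearMap.ker t) : A) := by
      rw [q_mul t h1 h2 x y, q_mul t h1 h2 y x, symm, q_anti t h1 h2 hq x y, Submodule.coe_neg]
      module
    rw [e1] at h
    set M := qm t h1 h2 x y with hM
    have e2 := q_mul t h1 h2 M y
    rw [skew x y, neg_zero, zero_smul, zero_add] at e2
    set M2 := qm t h1 h2 M y with hM2
    have e3 := q_mul t h1 h2 M2 y
    rw [skew M y, neg_zero, zero_smul, zero_add] at e3
    have e4 := q_mul t h1 h2 y y
    rw [q_alt t h1 h2 hq y, Submodule.coe_zero, add_zero] at e4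
    rw [smul_mul_assoc, smul_mul_assoc, smul_mul_assoc, e2, e3, e4, mul_smul_comm, mul_one] at h
    have h5 : (2 : K) • (((qm t h1 h2 M2 y : LinearMap.ker t) : A) + qB t y y • (M : A)) = 0 := by
      linear_combination (norm := module) h
    have h6 := (smul_eq_zero.mp h5).resolve_left h2
    have h7 : qm t h1 h2 M2 y + qB t y y • M = 0 := Subtype.ext h6
    rw [q_anti t h1 h2 hq x y, map_neg, q_anti t h1 h2 hq M y, neg_neg,
      q_anti t h1 h2 hq M2 y]
    linear_combination (norm := module) -h7
  two := h2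

theorem decompA (h1 : t 1 = 2) (h2 : (2 : K) ≠ 0) (a : A) :
    ∃ (c : K) (v : LinearMap.ker t), a = c • (1 : A) + (v : A) := by
  refine ⟨(2 : K)⁻¹ * t a, qp t h1 h2 a, ?_⟩
  rw [qp_coe]
  abel

/-- `A = K ⊕ ker t` -/
noncomputable def splitA (h1 : t 1 = 2) (h2 : (2 : K) ≠ 0) : A ≃ₗ[K] K × LinearMap.ker t where
  toFun a := ((2 : K)⁻¹ * t a, qp t h1 h2 a)
  map_add' a b := by
    ext
    · simp [mul_add]
    · simp
  map_smul' c a := by
    ext
    · simp; ring
    · simp
  invFun p := p.1 • (1 : A) + (p.2 : A)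
  left_inv a := by
    simp only [qp_coe]
    abel
  right_inv p := by
    obtain ⟨c, v⟩ := p
    have ht : t (c • (1 : A) + (v : A)) = c * 2 := by
      rw [map_add, map_smul, h1, t_coe, smul_eq_mul, add_zero]
    ext
    · simp only [ht]
      field_simp
    · simp only [qp_coe, ht]
      have : (2 : K)⁻¹ * (c * 2) = c := by field_simp
      rw [this]
      abel

/-- **Classification of simple flexible quadratic algebras with `([x,y],y,y) = 0`.** -/
theorem quad_classification (h2 : (2 : K) ≠ 0) (hq : IsQuadratic K A) (hs : IsSimpleAlg K A)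
    (hf : ∀ x y : A, (x * y) * x = x * (y * x)) (hC : CommIdentity A) :
    IsAlternative A ∨ (∀ x y : A, x * y = y * x) ∨ Module.finrank K A = 7 := by
  obtain ⟨t, h1, hq⟩ := hq
  set d := toCP t h1 h2 hq hf hs hC with hd
  have hmul : ∀ x y : LinearMap.ker t, (x : A) * y = -(d.B x y) • (1 : A) + (d.m x y : A) :=
    fun x y => q_mul t h1 h2 x y
  by_cases hm : ∃ x y, d.m x y ≠ 0
  swap
  · right; left
    push Not at hm
    intro x y
    obtain ⟨a, v, rfl⟩ := decompA t h1 h2 x
    obtain ⟨b, w, rfl⟩ := decompA t h1 h2 y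
    have e1 := hmul v w
    have e2 := hmul w v
    rw [hm, Submodule.coe_zero, add_zero] at e1 e2
    rw [d.symm w v] at e2
    simp only [add_mul, mul_add, smul_mul_assoc, mul_smul_comm, one_mul, mul_one, e1, e2]
    module
  by_cases hna : ∃ y, ¬ d.Law y
  · right; right
    have h6 := d.main hm hna
    have : Module.Finite K (LinearMap.ker t) := Module.finite_of_finrank_pos (by rw [h6]; norm_num)
    rw [(splitA t h1 h2).finrank_eq, Module.finrank_prod, h6, Module.finrank_self]
  · left
    push Not at hna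
    have hl : ∀ v w : LinearMap.ker t, ((v : A) * v) * w = v * ((v : A) * w) := by
      intro v w
      have e1 := hmul v v
      have e2 := hmul v w
      have e3 := hmul v (d.m v w)
      have e4 : d.B v (d.m v w) = 0 := by
        rw [d.symm, d.anti v w, map_neg, LinearMap.neg_apply, d.skew, neg_zero]
      have e5 := congrArg (fun z : LinearMap.ker t => (z : A)) (hna v w)
      simp only [Submodule.coe_add, Submodule.coe_smul] at e5
      rw [d.alt, Submodule.coe_zero, add_zero] at e1
      rw [e4, neg_zero, zero_smul, zero_add] at e3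
      rw [e1, e2, smul_mul_assoc, one_mul, mul_add, mul_smul_comm, mul_one, e3, e5]
      module
    have hr : ∀ v w : LinearMap.ker t, ((w : A) * v) * v = w * ((v : A) * v) := by
      intro v w
      have e1 := hmul v v
      have e2 := hmul w v
      have e3 := hmul (d.m w v) v
      have e5 := congrArg (fun z : LinearMap.ker t => (z : A)) (hna v w)
      simp only [Submodule.coe_add, Submodule.coe_smul] at e5
      rw [d.alt, Submodule.coe_zero, add_zero] at e1
      rw [d.skew, neg_zero, zero_smul, zero_add] at e3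
      have e6 : d.m (d.m w v) v = d.m v (d.m v w) := by
        rw [d.anti (d.m w v) v, d.anti w v, map_neg, neg_neg]
      rw [e6, e5] at e3
      rw [e1, e2, add_mul, smul_mul_assoc, one_mul, mul_smul_comm, mul_one, e3, d.symm w v]
      module
    intro x y
    obtain ⟨a, v, rfl⟩ := decompA t h1 h2 x
    obtain ⟨b, w, rfl⟩ := decompA t h1 h2 y
    have l1 := hl v w
    have r1 := hr v w
    constructor
    · simp only [add_mul, mul_add, smul_mul_assoc, mul_smul_comm, one_mul, mul_one]
      linear_combination (norm := module) l1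
    · simp only [add_mul, mul_add, smul_mul_assoc, mul_smul_comm, one_mul, mul_one]
      linear_combination (norm := module) r1

end

end Pool.Agent.H254R3.NCJ
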