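import Mathlib
import Pool.Agent.H254R3.NCJ.Col

set_option autoImplicit false

namespace Pool.Agent.H254R3.NCJ

variable {K : Type} [Field K]
set_option linter.unusedSectionVars false

/-- explicit vector -/
def Col.mk7 (a0 a1 a2 a3 a4 a5 a6 : K) : Col K := ![a0, a1, a2, a3, a4, a5, a6]

@[simp] theorem mk7_0 (a0 a1 a2 a3 a4 a5 a6 : K) : Col.mk7 a0 a1 a2 a3 a4 a5 a6 0 = a0 := rfl
@[simp] theorem mk7_1 (a0 a1 a2 a3 a4 a5 a6 : K) : Col.mk7 a0 a1 a2 a3 a4 a5 a6 1 = a1 := rfl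
@[simp] theorem mk7_2 (a0 a1 a2 a3 a4 a5 a6 : K) : Col.mk7 a0 a1 a2 a3 a4 a5 a6 2 = a2 := rfl
@[simp] theorem mk7_3 (a0 a1 a2 a3 a4 a5 a6 : K) : Col.mk7 a0 a1 a2 a3 a4 a5 a6 3 = a3 := rfl
@[simp] theorem mk7_4 (a0 a1 a2 a3 a4 a5 a6 : K) : Col.mk7 a0 a1 a2 a3 a4 a5 a6 4 = a4 := rfl
@[simp] theorem mk7_5 (a0 a1 a2 a3 a4 a5 a6 : K) : Col.mk7 a0 a1 a2 a3 a4 a5 a6 5 = a5 := rfl
@[simp] theorem mk7_6 (a0 a1 a2 a3 a4 a5 a6 : K) : Col.mk7 a0 a1 a2 a3 a4 a5 a6 6 = a6 := rfl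

theorem one_mul' (x : Col K) : Col.mk7 1 0 0 0 0 0 0 * x = x := by (apply Col.ext7 <;>
    simp [Col.mul0, Col.mul1, Col.mul2, Col.mul3, Col.mul4, Col.mul5, Col.mul6,
      Col.add_apply, Col.neg_apply, Col.sub_apply, Col.zero_apply] <;> ring)
theorem mul_one' (x : Col K) : x * Col.mk7 1 0 0 0 0 0 0 = x := by (apply Col.ext7 <;>
    simp [Col.mul0, Col.mul1, Col.mul2, Col.mul3, Col.mul4, Col.mul5, Col.mul6,
      Col.add_apply, Col.neg_apply, Col.sub_apply, Col.zero_apply] <;> ring)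

/-- `{x, y} = xy + yx` -/
def jp (x y : Col K) : Col K := x * y + y * x

theorem ideal_top (S : Set (Col K)) (hadd : ∀ a ∈ S, ∀ b ∈ S, a + b ∈ S)
    (hl : ∀ a ∈ S, ∀ x, x * a ∈ S) (hr : ∀ a ∈ S, ∀ x, a * x ∈ S) (h2 : (2 : K) ≠ 0)
    (x : Col K) (hx : x ∈ S) (hx0 : x ≠ 0) : ∀ y, y ∈ S := by
  have hone : ∀ c : K, c ≠ 0 → Col.mk7 c 0 0 0 0 0 0 ∈ S → ∀ y, y ∈ S := by
    intro c hc h y
    have h1 := hl _ h (Col.mk7 c⁻¹ 0 0 0 0 0 0)
    have e1 : Col.mk7 c⁻¹ 0 0 0 0 0 0 * Col.mk7 c 0 0 0 0 0 0 = Col.mk7 1 0 0 0 0 0 0 := by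
      apply Col.ext7 <;>
      simp [Col.mul0, Col.mul1, Col.mul2, Col.mul3, Col.mul4, Col.mul5, Col.mul6, hc]
    rw [e1] at h1
    have h2 := hl _ h1 y
    rwa [mul_one'] at h2
  have hj : ∀ a ∈ S, ∀ x, jp x a ∈ S := fun a ha x => hadd _ (hl a ha x) _ (hr a ha x)
  have h4 : (4 : K) ≠ 0 := by
    have : (4 : K) = 2 * 2 := by norm_num
    rw [this]; exact mul_ne_zero h2 h2
  have h8 : (8 : K) ≠ 0 := by
    have : (8 : K) = 2 * 4 := by norm_num
    rw [this]; exact mul_ne_zero h2 h4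
  -- coordinates 4,5,6 (the part `f`)
  by_cases h_4 : x 4 = 0
  · by_cases h_5 : x 5 = 0
    · by_cases h_6 : x 6 = 0
      · by_cases h_1 : x 1 = 0
        · by_cases h_2 : x 2 = 0
          · by_cases h_3 : x 3 = 0
            · -- scalar
              have h0 : x 0 ≠ 0 := by
                intro h0
                exact hx0 (Col.ext7 h0 h_1 h_2 h_3 h_4 h_5 h_6)
              refine hone (x 0) h0 ?_
              have : Col.mk7 (x 0) 0 0 0 0 0 0 = x := by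
                apply Col.ext7 <;> simp [h_1, h_2, h_3, h_4, h_5, h_6]
              rw [this]; exact hx
            · have h := hj _ (hj _ (hj _ hx (Col.mk7 0 0 0 0 0 0 1)) (Col.mk7 0 1 0 0 0 0 0))
                (Col.mk7 0 0 0 0 1 0 0)
              have e : jp (Col.mk7 0 0 0 0 1 0 0) (jp (Col.mk7 0 1 0 0 0 0 0)
                (jp (Col.mk7 0 0 0 0 0 0 1) x)) = Col.mk7 (8 * x 3) 0 0 0 0 0 0 := by
                unfold jp; (apply Col.ext7 <;>
                    simp [Col.mul0, Col.mul1, Col.mul2, Col.mul3, Col.mul4, Col.mul5, Col.mul6,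
                      Col.add_apply, Col.neg_apply, Col.sub_apply, Col.zero_apply] <;> ring)
              rw [e] at h
              exact hone _ (mul_ne_zero h8 h_3) h
          · have h := hj _ (hj _ (hj _ hx (Col.mk7 0 0 0 0 0 1 0)) (Col.mk7 0 1 0 0 0 0 0))
              (Col.mk7 0 0 0 0 1 0 0)
            have e : jp (Col.mk7 0 0 0 0 1 0 0) (jp (Col.mk7 0 1 0 0 0 0 0)
              (jp (Col.mk7 0 0 0 0 0 1 0) x)) = Col.mk7 (8 * x 2) 0 0 0 0 0 0 := by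
              unfold jp; (apply Col.ext7 <;>
                  simp [Col.mul0, Col.mul1, Col.mul2, Col.mul3, Col.mul4, Col.mul5, Col.mul6,
                    Col.add_apply, Col.neg_apply, Col.sub_apply, Col.zero_apply] <;> ring)
            rw [e] at h
            exact hone _ (mul_ne_zero h8 h_2) h
        · have h := hj _ (hj _ (hj _ hx (Col.mk7 0 0 0 0 1 0 0)) (Col.mk7 0 0 1 0 0 0 0))
            (Col.mk7 0 0 0 0 0 1 0)
          have e : jp (Col.mk7 0 0 0 0 0 1 0) (jp (Col.mk7 0 0 1 0 0 0 0)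
            (jp (Col.mk7 0 0 0 0 1 0 0) x)) = Col.mk7 (8 * x 1) 0 0 0 0 0 0 := by
            unfold jp; (apply Col.ext7 <;>
                simp [Col.mul0, Col.mul1, Col.mul2, Col.mul3, Col.mul4, Col.mul5, Col.mul6,
                  Col.add_apply, Col.neg_apply, Col.sub_apply, Col.zero_apply] <;> ring)
          rw [e] at h
          exact hone _ (mul_ne_zero h8 h_1) h
      · have h := hj _ (hj _ (hj _ hx (Col.mk7 0 0 0 1 0 0 0)) (Col.mk7 0 0 0 0 1 0 0))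
          (Col.mk7 0 1 0 0 0 0 0)
        have e : jp (Col.mk7 0 1 0 0 0 0 0) (jp (Col.mk7 0 0 0 0 1 0 0)
          (jp (Col.mk7 0 0 0 1 0 0 0) x)) = Col.mk7 (8 * x 6) 0 0 0 0 0 0 := by
          unfold jp; (apply Col.ext7 <;>
              simp [Col.mul0, Col.mul1, Col.mul2, Col.mul3, Col.mul4, Col.mul5, Col.mul6,
                Col.add_apply, Col.neg_apply, Col.sub_apply, Col.zero_apply] <;> ring)
        rw [e] at h
        exact hone _ (mul_ne_zero h8 h_6) h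
    · have h := hj _ (hj _ (hj _ hx (Col.mk7 0 0 1 0 0 0 0)) (Col.mk7 0 0 0 0 1 0 0))
        (Col.mk7 0 1 0 0 0 0 0)
      have e : jp (Col.mk7 0 1 0 0 0 0 0) (jp (Col.mk7 0 0 0 0 1 0 0)
        (jp (Col.mk7 0 0 1 0 0 0 0) x)) = Col.mk7 (8 * x 5) 0 0 0 0 0 0 := by
        unfold jp; (apply Col.ext7 <;>
            simp [Col.mul0, Col.mul1, Col.mul2, Col.mul3, Col.mul4, Col.mul5, Col.mul6,
              Col.add_apply, Col.neg_apply, Col.sub_apply, Col.zero_apply] <;> ring)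
      rw [e] at h
      exact hone _ (mul_ne_zero h8 h_5) h
  · have h := hj _ (hj _ (hj _ hx (Col.mk7 0 1 0 0 0 0 0)) (Col.mk7 0 0 0 0 0 1 0))
      (Col.mk7 0 0 1 0 0 0 0)
    have e : jp (Col.mk7 0 0 1 0 0 0 0) (jp (Col.mk7 0 0 0 0 0 1 0)
      (jp (Col.mk7 0 1 0 0 0 0 0) x)) = Col.mk7 (8 * x 4) 0 0 0 0 0 0 := by
      unfold jp; (apply Col.ext7 <;>
          simp [Col.mul0, Col.mul1, Col.mul2, Col.mul3, Col.mul4, Col.mul5, Col.mul6,
            Col.add_apply, Col.neg_apply, Col.sub_apply, Col.zero_apply] <;> ring)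
    rw [e] at h
    exact hone _ (mul_ne_zero h8 h_4) h

end Pool.Agent.H254R3.NCJ
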