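import Mathlib
import Pool.Agent.H254R3.NCJ.Quad

set_option autoImplicit false

namespace Pool.Agent.H254R3.NCJ

variable {K A : Type} [Field K] [NonAssocRing A] [Module K A] [IsScalarTower K A A]
  [SMulCommClass K A A]

/-- The trace of a quadratic algebra is linear (characteristic not two). -/
theorem isQuadratic_of (h2 : (2 : K) ≠ 0) (h01 : (1 : A) ≠ 0)
    (h : ∀ x : A, ∃ α β : K, x * x = α • x + β • (1 : A)) : IsQuadratic K A := by
  -- imaginary elements
  let P : A → Prop := fun x => (∃ β : K, x * x = β • (1 : A)) ∧ ∀ c : K, x = c • (1 : A) → x = 0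
  have P0 : P 0 := ⟨⟨0, by simp⟩, fun c _ => rfl⟩
  have Psmul : ∀ (c : K) (x : A), P x → P (c • x) := by
    rintro c x ⟨⟨β, hβ⟩, hx⟩
    by_cases hc : c = 0
    · rw [hc, zero_smul]; exact P0
    · refine ⟨⟨c * (c * β), ?_⟩, ?_⟩
      · rw [smul_mul_assoc, mul_smul_comm, hβ, smul_smul, smul_smul, mul_assoc]
      · intro e he
        have : x = (c⁻¹ * e) • (1 : A) := by
          rw [mul_smul, ← he, smul_smul, inv_mul_cancel₀ hc, one_smul]
        rw [hx _ this, smul_zero]
  have Plin : ∀ x y : A, P x → P y → ∀ γ δ : K, x = γ • y + δ • (1 : A) → P (x + y) := by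
    rintro x y hPx hPy γ δ hxy
    obtain ⟨⟨β, hβ⟩, hx⟩ := hPx
    obtain ⟨⟨β', hβ'⟩, hy⟩ := hPy
    by_cases hγ : γ = 0
    · have : x = 0 := hx δ (by rw [hxy, hγ, zero_smul, zero_add])
      rw [this, zero_add]; exact ⟨⟨β', hβ'⟩, hy⟩
    by_cases hδ : δ = 0
    · have : x + y = (γ + 1) • y := by rw [hxy, hδ]; module
      rw [this]; exact Psmul _ _ ⟨⟨β', hβ'⟩, hy⟩
    · have e1 : x * x = (γ * γ) • (y * y) + (2 * γ * δ) • y + (δ * δ) • (1 : A) := by
        rw [hxy]
        simp only [add_mul, mul_add, smul_mul_assoc, mul_smul_comm, one_mul, mul_one]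
        module
      rw [hβ, hβ'] at e1
      have hne : 2 * γ * δ ≠ 0 := mul_ne_zero (mul_ne_zero h2 hγ) hδ
      have e2 : y = ((2 * γ * δ)⁻¹ * (β - γ * γ * β' - δ * δ)) • (1 : A) := by
        have e3 : (2 * γ * δ) • y = (β - γ * γ * β' - δ * δ) • (1 : A) := by
          linear_combination (norm := module) -e1
        rw [mul_smul, ← e3, smul_smul, inv_mul_cancel₀ hne, one_smul]
      have e4 := hy _ e2
      rw [e4, add_zero]; exact ⟨⟨β, hβ⟩, hx⟩
  have Padd : ∀ x y : A, P x → P y → P (x + y) := by
    intro x y hPx hPy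
    obtain ⟨α, β, e1⟩ := h (x + y)
    obtain ⟨α', β', e2⟩ := h (x - y)
    have hPx' := hPx
    have hPy' := hPy
    obtain ⟨⟨b, hb⟩, hx⟩ := hPx'
    obtain ⟨⟨b', hb'⟩, hy⟩ := hPy'
    have e3 : (α + α') • x + (α - α') • y = (2 * b + 2 * b' - β - β') • (1 : A) := by
      have e1' := e1
      have e2' := e2
      simp only [add_mul, mul_add, sub_mul, mul_sub, hb, hb'] at e1' e2'
      linear_combination (norm := module) -e1' - e2'
    by_cases ha : α + α' = 0
    · by_cases ha' : α - α' = 0
      · have hα : α = 0 := by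
          have : 2 * α = 0 := by linear_combination ha + ha'
          exact (mul_eq_zero.mp this).resolve_left h2
        by_cases hk : ∃ c : K, x + y = c • (1 : A)
        · obtain ⟨c, hc⟩ := hk
          exact Plin x y hPx hPy (-1) c (by rw [← hc]; module)
        · push Not at hk
          refine ⟨⟨β, by rw [e1, hα, zero_smul, zero_add]⟩, fun c hc => absurd hc (hk c)⟩
      · rw [add_comm]
        refine Plin y x hPy hPx (-((α - α')⁻¹ * (α + α')))
          ((α - α')⁻¹ * (2 * b + 2 * b' - β - β')) ?_
        have : y = (α - α')⁻¹ • ((α - α') • y) := by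
          rw [smul_smul, inv_mul_cancel₀ ha', one_smul]
        have e5 : (α - α') • y = -((α + α') • x) + (2 * b + 2 * b' - β - β') • (1 : A) := by
          linear_combination (norm := module) e3
        rw [this, e5]
        module
    · refine Plin x y hPx hPy (-((α + α')⁻¹ * (α - α')))
        ((α + α')⁻¹ * (2 * b + 2 * b' - β - β')) ?_
      have : x = (α + α')⁻¹ • ((α + α') • x) := by
        rw [smul_smul, inv_mul_cancel₀ ha, one_smul]
      have e5 : (α + α') • x = -((α - α') • y) + (2 * b + 2 * b' - β - β') • (1 : A) := by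
        linear_combination (norm := module) e3
      rw [this, e5]
      module
  let V : Submodule K A :=
    { carrier := {x | P x}
      add_mem' := fun {a b} ha hb => Padd a b ha hb
      zero_mem' := P0
      smul_mem' := Psmul }
  have hdec : ∀ a : A, ∃ (c : K) (v : A), P v ∧ a = c • (1 : A) + v := by
    intro a
    by_cases hk : ∃ c : K, a = c • (1 : A)
    · obtain ⟨c, hc⟩ := hk
      exact ⟨c, 0, P0, by rw [hc, add_zero]⟩
    · push Not at hk
      obtain ⟨α, β, e⟩ := h a
      refine ⟨α / 2, a - (α / 2) • (1 : A), ⟨⟨β + α / 2 * (α / 2), ?_⟩, ?_⟩, by abel⟩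
      · simp only [sub_mul, mul_sub, smul_mul_assoc, mul_smul_comm, one_mul, mul_one, e]
        have : α = α / 2 + α / 2 := by field_simp; ring
        linear_combination (norm := module) (congrArg (fun z : K => z • a) this)
      · intro c hc
        exact absurd (show a = (c + α / 2) • (1 : A) by rw [add_smul, ← hc]; abel) (hk _)
  have hcompl : IsCompl (Submodule.span K {(1 : A)}) V := by
    constructor
    · rw [Submodule.disjoint_def]
      intro x hx hxV
      obtain ⟨c, hc⟩ := Submodule.mem_span_singleton.mp hx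
      exact hxV.2 c hc.symm
    · rw [codisjoint_iff, eq_top_iff]
      intro a _
      obtain ⟨c, v, hv, rfl⟩ := hdec a
      exact Submodule.add_mem_sup (Submodule.smul_mem _ _ (Submodule.mem_span_singleton_self _)) hv
  let pr := Submodule.linearProjOfIsCompl _ _ hcompl
  let co : Submodule.span K {(1 : A)} →ₗ[K] K := (LinearEquiv.coord K A (1 : A) h01 : _ →ₗ[K] K)
  let t : A →ₗ[K] K := (2 : K) • (co.comp pr)
  have ht : ∀ (c : K) (v : A), P v → t (c • (1 : A) + v) = 2 * c := by
    intro c v hv
    have e1 : pr (c • (1 : A) + v) = ⟨c • (1 : A), Submodule.smul_mem _ _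
        (Submodule.mem_span_singleton_self _)⟩ := by
      rw [map_add]
      have e2 : pr v = 0 := Submodule.linearProjOfIsCompl_apply_right hcompl ⟨v, hv⟩
      have e3 := Submodule.linearProjOfIsCompl_apply_left hcompl
        ⟨c • (1 : A), Submodule.smul_mem _ _ (Submodule.mem_span_singleton_self _)⟩
      rw [e2, add_zero]
      exact e3
    have e4 : co ⟨c • (1 : A), Submodule.smul_mem _ _ (Submodule.mem_span_singleton_self _)⟩ = c := by
      have e5 : (⟨c • (1 : A), Submodule.smul_mem _ _ (Submodule.mem_span_singleton_self _)⟩ :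
          Submodule.span K {(1 : A)}) =
          c • ⟨1, Submodule.mem_span_singleton_self _⟩ := rfl
      rw [e5, map_smul]
      have e6 : co ⟨1, Submodule.mem_span_singleton_self _⟩ = 1 :=
        LinearEquiv.coord_self K A (1 : A) h01
      rw [e6, smul_eq_mul, mul_one]
    change (2 : K) • co (pr (c • (1 : A) + v)) = 2 * c
    rw [e1, e4, smul_eq_mul]
  refine ⟨t, ?_, ?_⟩
  · have := ht 1 0 P0
    rw [one_smul, add_zero, mul_one] at this
    exact this
  · intro x
    obtain ⟨c, v, hv, rfl⟩ := hdec x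
    rw [ht c v hv]
    obtain ⟨β, hβ⟩ := hv.1
    refine ⟨c * c - β, ?_⟩
    simp only [add_mul, mul_add, smul_mul_assoc, mul_smul_comm, one_mul, mul_one, hβ]
    module

end Pool.Agent.H254R3.NCJ
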